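import Pool.Agent.Helper40.Ct.Goals

/-!
The centre of the grid: Prop GRX of MP_034a88_co.
-/

set_option autoImplicit false

open Finset

namespace Pool.Agent.Helper54.Ct

open Pool.Agent.Helper40.Ct

/-- the vertices of `frd` -/
def vtx {d : ℕ} (x : Fin d → ℤ) (σ : Equiv.Perm (Fin d)) (s : Fin (d + 1)) : Fin d → ℤ :=
  x + ∑ t ∈ univ.filter (fun t : Fin d => (t : ℕ) < s), Pi.single (σ t) (1 : ℤ)

theorem frd_eq {d : ℕ} (x : Fin d → ℤ) (σ : Equiv.Perm (Fin d)) :
    frd x σ = List.ofFn (vtx x σ) := rfl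

theorem vtx_apply {d : ℕ} (x : Fin d → ℤ) (σ : Equiv.Perm (Fin d)) (s : Fin (d + 1))
    (t : Fin d) : vtx x σ s (σ t) = x (σ t) + if (t : ℕ) < s then 1 else 0 := by
  unfold vtx
  rw [Pi.add_apply, Finset.sum_apply]
  congr 1
  have h1 : ∀ t' : Fin d, (Pi.single (σ t') (1 : ℤ) : Fin d → ℤ) (σ t) = if t' = t then 1 else 0 := by
    intro t'
    rw [Pi.single_apply]
    by_cases h : t' = t
    · rw [if_pos h, if_pos (by rw [h])]
    · rw [if_neg h, if_neg]
      intro h2
      exact h (σ.injective h2.symm)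
  rw [Finset.sum_congr rfl fun t' _ => h1 t', Finset.sum_ite_eq']
  simp only [mem_filter, mem_univ, true_and]

theorem mem_frd {d : ℕ} {x : Fin d → ℤ} {σ : Equiv.Perm (Fin d)} {y : Fin d → ℤ} :
    y ∈ frd x σ ↔ ∃ s, vtx x σ s = y := by
  rw [frd_eq, List.mem_ofFn]

theorem vtx_inj {d : ℕ} (x : Fin d → ℤ) (σ : Equiv.Perm (Fin d)) :
    Function.Injective (vtx x σ) := by
  have key : ∀ s s' : Fin (d + 1), (s : ℕ) < s' → vtx x σ s ≠ vtx x σ s' := by
    intro s s' h he
    have hs : (s : ℕ) < d := by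
      have := s'.2
      omega
    have h1 := congrFun he (σ ⟨s, hs⟩)
    rw [vtx_apply, vtx_apply, if_neg (by simp), if_pos (by simpa using h)] at h1
    omega
  intro s s' he
  by_contra hne
  rcases lt_or_gt_of_ne (fun h => hne (Fin.ext h) : (s : ℕ) ≠ s') with h | h
  · exact key s s' h he
  · exact key s' s h he.symm

theorem ctr_pos {d : ℕ} (k : Fin d) : 0 < ctr d k := by
  unfold ctr
  have h : ((k : ℕ) : ℝ) < d := by exact_mod_cast k.2
  exact div_pos (by linarith) (by positivity)

theorem ctr_lt {d : ℕ} (k : Fin d) : ctr d k < 1 := by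
  unfold ctr
  rw [div_lt_one (by positivity)]
  have h : (0 : ℝ) ≤ ((k : ℕ) : ℝ) := by positivity
  linarith

theorem ctr_anti {d : ℕ} {k l : Fin d} (h : k < l) : ctr d l < ctr d k := by
  unfold ctr
  have h1 : ((k : ℕ) : ℝ) < ((l : ℕ) : ℝ) := by exact_mod_cast h
  exact div_lt_div_of_pos_right (by linarith) (by positivity)

/-- a half space -/
theorem hull_lt {d : ℕ} (L : (Fin d → ℝ) →ₗ[ℝ] ℝ) (Y : Set (Fin d → ℤ))
    (h : ∀ y ∈ Y, L (gf y) < 0) : (0 : Fin d → ℝ) ∉ convexHull ℝ (gf '' Y) := by
  intro h0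
  have hc : Convex ℝ {w : Fin d → ℝ | L w < 0} :=
    convex_halfSpace_lt L.isLinear 0
  have h1 := convexHull_min (s := gf '' Y) (t := {w : Fin d → ℝ | L w < 0}) (by
    rintro _ ⟨y, hy, rfl⟩
    exact h y hy) hc h0
  simp at h1

/-- a hyperplane -/
theorem hull_ne {d : ℕ} (L : (Fin d → ℝ) →ₗ[ℝ] ℝ) (Y : Set (Fin d → ℤ)) (a : ℝ) (ha : a ≠ 0)
    (h : ∀ y ∈ Y, L (gf y) = a) : (0 : Fin d → ℝ) ∉ convexHull ℝ (gf '' Y) := by
  intro h0
  have hc : Convex ℝ {w : Fin d → ℝ | L w = a} :=
    convex_hyperplane L.isLinear a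
  have h1 := convexHull_min (s := gf '' Y) (t := {w : Fin d → ℝ | L w = a}) (by
    rintro _ ⟨y, hy, rfl⟩
    exact h y hy) hc h0
  simp only [Set.mem_ofPred_eq, map_zero] at h1
  exact ha h1.symm

theorem ctr_ne {d : ℕ} (k : Fin d) (m : ℤ) : ctr d k - m ≠ 0 := by
  intro h
  have h1 : ctr d k = m := by linarith
  have h2 := ctr_pos k
  have h3 := ctr_lt k
  rw [h1] at h2 h3
  have h4 : 0 < m := by exact_mod_cast h2
  have h5 : m < 1 := by exact_mod_cast h3
  omega

theorem ctr_sub_ne {d : ℕ} {k l : Fin d} (hkl : k ≠ l) (m : ℤ) : ctr d k - ctr d l - m ≠ 0 := by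
  intro h
  have h1 : ctr d k - ctr d l = m := by linarith
  have h2 := ctr_pos k
  have h3 := ctr_lt k
  have h4 := ctr_pos l
  have h5 := ctr_lt l
  have h6 : (-1 : ℝ) < m := by linarith
  have h7 : (m : ℝ) < 1 := by linarith
  have h8 : -1 < m := by exact_mod_cast h6
  have h9 : m < 1 := by exact_mod_cast h7
  have h10 : m = 0 := by omega
  rw [h10] at h1
  rcases lt_or_gt_of_ne hkl with hk | hk
  · have := ctr_anti hk
    push_cast at h1
    linarith
  · have := ctr_anti hk
    push_cast at h1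
    linarith

theorem grx : GRX := by
  intro d hd
  refine ⟨?_, ?_, ?_⟩
  · intro M x σ h0
    have hx : ∀ k, (x k : ℕ) = 0 := by
      intro k
      by_contra hk
      refine hull_lt (LinearMap.proj k) _ ?_ h0
      rintro y hy
      obtain ⟨s, rfl⟩ := mem_frd.1 hy
      rw [LinearMap.proj_apply]
      unfold gf
      obtain ⟨t, rfl⟩ := σ.surjective k
      rw [vtx_apply]
      have h1 := ctr_lt (σ t)
      have h2 : (1 : ℤ) ≤ corner x (σ t) := by
        unfold corner
        omega
      have h3 : (1 : ℤ) ≤ corner x (σ t) + if (t : ℕ) < s then 1 else 0 := by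
        split_ifs <;> omega
      have h4 : (1 : ℝ) ≤ ((corner x (σ t) + if (t : ℕ) < s then 1 else 0 : ℤ) : ℝ) := by
        exact_mod_cast h3
      linarith
    refine ⟨hx, ?_⟩
    have hmono : StrictMono σ := by
      intro t t' htt
      by_contra hlt
      have hlt' : σ t' < σ t := by
        rcases lt_trichotomy (σ t') (σ t) with h | h | h
        · exact h
        · exact absurd (σ.injective h) (ne_of_gt htt)
        · exact absurd h hlt
      refine hull_lt ((LinearMap.proj (σ t) : (Fin d → ℝ) →ₗ[ℝ] ℝ) -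
        LinearMap.proj (σ t')) _ ?_ h0
      rintro y hy
      obtain ⟨s, rfl⟩ := mem_frd.1 hy
      rw [LinearMap.sub_apply, LinearMap.proj_apply, LinearMap.proj_apply]
      unfold gf
      rw [vtx_apply, vtx_apply]
      have h1 := ctr_anti hlt'
      have h2 : corner x (σ t) = 0 := by
        unfold corner
        rw [hx]
        rfl
      have h3 : corner x (σ t') = 0 := by
        unfold corner
        rw [hx]
        rfl
      rw [h2, h3]
      have htt' : (t : ℕ) < t' := htt
      by_cases h5 : (t' : ℕ) < s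
      · rw [if_pos h5, if_pos (by omega)]
        push_cast
        linarith
      · rw [if_neg h5]
        by_cases h6 : (t : ℕ) < s
        · rw [if_pos h6]
          push_cast
          linarith
        · rw [if_neg h6]
          push_cast
          linarith
    ext t
    have h1 : ∀ (f : Fin d ≃o Fin d), f = OrderIso.refl (Fin d) := fun f => Subsingleton.elim _ _
    have h2 := h1 (hmono.orderIsoOfSurjective σ σ.surjective)
    have h3 : (hmono.orderIsoOfSurjective σ σ.surjective) t = t := by
      rw [h2]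
      rfl
    have h4 : (hmono.orderIsoOfSurjective σ σ.surjective) t = σ t := rfl
    rw [← h4, h3]
    rfl
  · intro x σ A hA hcard
    classical
    obtain ⟨s₀, hs₀⟩ : ∃ s₀ : Fin (d + 1), vtx x σ s₀ ∉ A := by
      by_contra hcon
      push Not at hcon
      have h1 : (univ : Finset (Fin (d + 1))).image (vtx x σ) ⊆ A := by
        intro y hy
        rw [mem_image] at hy
        obtain ⟨s, _, rfl⟩ := hy
        exact hcon s
      have h2 := Finset.card_le_card h1
      rw [Finset.card_image_of_injective _ (vtx_inj x σ), Finset.card_univ, Fintype.card_fin] at h2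
      omega
    have hs : ∀ y ∈ A, ∃ s, s ≠ s₀ ∧ vtx x σ s = y := by
      intro y hy
      obtain ⟨s, hs⟩ := mem_frd.1 (hA y hy)
      exact ⟨s, fun he => hs₀ (by rw [← he, hs]; exact hy), hs⟩
    by_cases h00 : (s₀ : ℕ) = 0
    · refine hull_ne (LinearMap.proj (σ ⟨0, hd⟩)) _
        (ctr d (σ ⟨0, hd⟩) - ((x (σ ⟨0, hd⟩) + 1 : ℤ) : ℝ)) (ctr_ne _ _) ?_
      intro y hy
      obtain ⟨s, hne, rfl⟩ := hs y hy
      rw [LinearMap.proj_apply]
      unfold gf
      rw [vtx_apply, if_pos]
      have : (s : ℕ) ≠ s₀ := fun h => hne (Fin.ext h)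
      show 0 < (s : ℕ)
      omega
    · by_cases h0d : (s₀ : ℕ) = d
      · refine hull_ne (LinearMap.proj (σ ⟨d - 1, by omega⟩)) _
          (ctr d (σ ⟨d - 1, by omega⟩) - ((x (σ ⟨d - 1, by omega⟩) : ℤ) : ℝ)) (ctr_ne _ _) ?_
        intro y hy
        obtain ⟨s, hne, rfl⟩ := hs y hy
        rw [LinearMap.proj_apply]
        unfold gf
        rw [vtx_apply, if_neg, add_zero]
        have : (s : ℕ) ≠ s₀ := fun h => hne (Fin.ext h)
        have h2 := s.2
        show ¬ (d - 1 < (s : ℕ))
        omega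
      · have hlt : (s₀ : ℕ) < d := by
          have := s₀.2
          omega
        have hne' : σ ⟨(s₀ : ℕ) - 1, by omega⟩ ≠ σ ⟨s₀, hlt⟩ := by
          intro h
          have h1 := congrArg Fin.val (σ.injective h)
          simp only at h1
          omega
        refine hull_ne ((LinearMap.proj (σ ⟨(s₀ : ℕ) - 1, by omega⟩) : (Fin d → ℝ) →ₗ[ℝ] ℝ) -
          LinearMap.proj (σ ⟨s₀, hlt⟩)) _
          (ctr d (σ ⟨(s₀ : ℕ) - 1, by omega⟩) - ctr d (σ ⟨s₀, hlt⟩) -
            ((x (σ ⟨(s₀ : ℕ) - 1, by omega⟩) - x (σ ⟨s₀, hlt⟩) : ℤ) : ℝ)) (ctr_sub_ne hne' _) ?_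
        intro y hy
        obtain ⟨s, hne, rfl⟩ := hs y hy
        rw [LinearMap.sub_apply, LinearMap.proj_apply, LinearMap.proj_apply]
        unfold gf
        rw [vtx_apply, vtx_apply]
        have h2 : (s : ℕ) ≠ s₀ := fun h => hne (Fin.ext h)
        by_cases h3 : (s₀ : ℕ) < s
        · rw [if_pos (show (s₀ : ℕ) - 1 < (s : ℕ) by omega), if_pos h3]
          push_cast
          ring
        · rw [if_neg (show ¬ ((s₀ : ℕ) - 1 < (s : ℕ)) by omega), if_neg h3]
          push_cast
          ring
  · have hv : ∀ (s : Fin (d + 1)) (k : Fin d),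
        gf (vtx (0 : Fin d → ℤ) 1 s) k = ctr d k - if (k : ℕ) < s then 1 else 0 := by
      intro s k
      unfold gf
      have h1 := vtx_apply (0 : Fin d → ℤ) 1 s k
      rw [Equiv.Perm.one_apply] at h1
      rw [h1, Pi.zero_apply, zero_add]
      split_ifs <;> simp
    refine ⟨vtx 0 1, vtx_inj 0 1, rfl, ⟨fun _ => 1 / ((d : ℝ) + 1), fun _ => by positivity, ?_,
      ?_⟩, ?_⟩
    · rw [Finset.sum_const, Finset.card_univ, Fintype.card_fin, nsmul_eq_mul]
      push_cast
      field_simp
    · funext k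
      rw [← Finset.smul_sum, Pi.smul_apply, Finset.sum_apply, Pi.zero_apply, smul_eq_mul]
      rw [Finset.sum_congr rfl fun s _ => hv s k, Finset.sum_sub_distrib, Finset.sum_const,
        Finset.card_univ, Fintype.card_fin, nsmul_eq_mul]
      have h1 : ∑ s : Fin (d + 1), (if (k : ℕ) < s then (1 : ℝ) else 0) = (d : ℝ) - k := by
        rw [Fin.sum_univ_eq_sum_range (fun s : ℕ => if (k : ℕ) < s then (1 : ℝ) else 0) (d + 1)]
        rw [← Finset.sum_filter, Finset.sum_const, nsmul_eq_mul, mul_one]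
        have h2 : (Finset.range (d + 1)).filter (fun s => (k : ℕ) < s) = Finset.Ico ((k : ℕ) + 1) (d + 1) := by
          ext s
          simp only [mem_filter, mem_range, mem_Ico]
          omega
        rw [h2, Nat.card_Ico]
        have h3 := k.2
        rw [Nat.cast_sub (by omega)]
        push_cast
        ring
      rw [h1]
      unfold ctr
      push_cast
      field_simp
      ring
    · intro c hc hg
      have hF : ∀ k : ℕ, ∑ s : Fin (d + 1), (if k ≤ (s : ℕ) then c s else 0) = 0 := by
        intro k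
        rcases Nat.eq_zero_or_pos k with hk | hk
        · rw [hk]
          simpa using hc
        · by_cases hkd : k ≤ d
          · have h1 := congrFun hg ⟨k - 1, by omega⟩
            rw [Finset.sum_apply] at h1
            simp only [Pi.smul_apply, smul_eq_mul, hv, Pi.zero_apply, mul_sub,
              Finset.sum_sub_distrib, ← Finset.sum_mul, hc, zero_mul, zero_sub, neg_eq_zero] at h1
            refine Eq.trans (Finset.sum_congr rfl fun s _ => ?_) h1
            by_cases h2 : k ≤ (s : ℕ)
            · rw [if_pos h2, if_pos (by omega), mul_one]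
            · rw [if_neg h2, if_neg (by omega), mul_zero]
          · refine Finset.sum_eq_zero fun s _ => ?_
            rw [if_neg]
            have := s.2
            omega
      funext s
      have h1 := hF s
      have h2 := hF (s + 1)
      have h3 : c s = ∑ s' : Fin (d + 1), ((if (s : ℕ) ≤ (s' : ℕ) then c s' else 0) -
          (if (s : ℕ) + 1 ≤ (s' : ℕ) then c s' else 0)) := by
        rw [Finset.sum_eq_single s]
        · rw [if_pos le_rfl, if_neg (by omega), sub_zero]
        · intro s' _ hne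
          have h4 : (s' : ℕ) ≠ s := fun h => hne (Fin.ext h)
          by_cases h5 : (s : ℕ) ≤ s'
          · rw [if_pos h5, if_pos (by omega), sub_self]
          · rw [if_neg h5, if_neg (by omega), sub_self]
        · intro h
          exact absurd (mem_univ s) h
      rw [h3, Finset.sum_sub_distrib, h1, h2, sub_zero]
      rfl

end Pool.Agent.Helper54.Ct
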